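import Pool.Agent.Q123.SD.Count

/-!
# The branches of the symbolic defect can have different leading coefficients

For the monomial ideal `I = (x³, x²y, xyz, y²z) = (x³, xy, y²) ∩ (x², z)` the symbolic defect is
`2n - 2` for even `n ≥ 2` and `(5n - 3)/2` for odd `n ≥ 3`. So the branches of this quasi-polynomial have
the leading coefficients `2` and `5/2`.
-/

set_option autoImplicit false

open Pool.Agent.Q123.SD Pool.Agent.Q123.KB

namespace Pool.Agent.Results.MP_a342dd_al.DifferentLeadingCoefficients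

/-- `f` is eventually the quasi-polynomial with the branches `P 0, …, P (p - 1)`: `f n = P_i(n)`
whenever `n ≥ N` and `n ≡ i` modulo `p`. -/
def HasBranches (f : ℕ → ℕ) (p : ℕ) (P : ℕ → Polynomial ℚ) : Prop :=
  1 ≤ p ∧ ∃ N : ℕ, ∀ n, N ≤ n → (f n : ℚ) = (P (n % p)).eval (n : ℚ)

/-- the largest degree of the branches -/
noncomputable def topDegree (p : ℕ) (P : ℕ → Polynomial ℚ) : ℕ :=
  (Finset.range p).sup fun i => (P i).natDegree

/-- all branches have the same coefficient in the largest degree of the branches -/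
def EqualLeading (p : ℕ) (P : ℕ → Polynomial ℚ) : Prop :=
  ∀ i j, i < p → j < p → (P i).coeff (topDegree p P) = (P j).coeff (topDegree p P)

open Polynomial in
theorem branch {f : ℕ → ℕ} (he : ∀ m, 1 ≤ m → f (2 * m) = 4 * m - 2)
    (ho : ∀ m, 1 ≤ m → f (2 * m + 1) = 5 * m + 1) {p : ℕ} {P : ℕ → Polynomial ℚ}
    (h : HasBranches f p P) (n₀ : ℕ) :
    P (n₀ % p) = if n₀ % 2 = 0 then C 2 * X - C 2 else C (5 / 2) * X - C (3 / 2) := by
  obtain ⟨hp, N, hN⟩ := h
  refine Polynomial.eq_of_infinite_eval_eq _ _ ?_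
  refine Set.Infinite.mono (s := Set.range fun k : ℕ => ((n₀ + 2 * p * (k + N + 1) : ℕ) : ℚ)) ?_
    (Set.infinite_range_of_injective fun k k' hk => ?_)
  · rintro _ ⟨k, rfl⟩
    change (P (n₀ % p)).eval ((n₀ + 2 * p * (k + N + 1) : ℕ) : ℚ) =
      (if n₀ % 2 = 0 then C 2 * X - C 2 else C (5 / 2) * X - C (3 / 2) : Polynomial ℚ).eval
        ((n₀ + 2 * p * (k + N + 1) : ℕ) : ℚ)
    have h1 : N + 2 ≤ n₀ + 2 * p * (k + N + 1) := by
      have : 1 * (k + N + 1) ≤ p * (k + N + 1) := Nat.mul_le_mul_right _ hp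
      have h2 : 2 * p * (k + N + 1) = 2 * (p * (k + N + 1)) := by ring
      omega
    have h2 := hN (n₀ + 2 * p * (k + N + 1)) (by omega)
    have h3 : (n₀ + 2 * p * (k + N + 1)) % p = n₀ % p := by
      rw [show n₀ + 2 * p * (k + N + 1) = n₀ + p * (2 * (k + N + 1)) by ring,
        Nat.add_mul_mod_self_left]
    rw [h3] at h2
    rw [← h2]
    have h4 : (n₀ + 2 * p * (k + N + 1)) % 2 = n₀ % 2 := by
      rw [show n₀ + 2 * p * (k + N + 1) = n₀ + 2 * (p * (k + N + 1)) by ring,
        Nat.add_mul_mod_self_left]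
    generalize n₀ + 2 * p * (k + N + 1) = n at h1 h4 ⊢
    by_cases h5 : n₀ % 2 = 0
    · obtain ⟨m, rfl⟩ : ∃ m, n = 2 * m := ⟨n / 2, by omega⟩
      rw [if_pos h5, he m (by omega), Nat.cast_sub (by omega)]
      simp only [eval_sub, eval_mul, eval_C, eval_X]
      push_cast
      ring
    · obtain ⟨m, rfl⟩ : ∃ m, n = 2 * m + 1 := ⟨n / 2, by omega⟩
      rw [if_neg h5, ho m (by omega)]
      simp only [eval_sub, eval_mul, eval_C, eval_X]
      push_cast
      ring
  · have h1 : (n₀ + 2 * p * (k + N + 1) : ℕ) = (n₀ + 2 * p * (k' + N + 1) : ℕ) := by exact_mod_cast hk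
    have h2 : 2 * p * (k + N + 1) = 2 * p * (k' + N + 1) := by omega
    have h3 := Nat.eq_of_mul_eq_mul_left (by omega) h2
    omega

open Polynomial in
theorem not_equal {f : ℕ → ℕ} (he : ∀ m, 1 ≤ m → f (2 * m) = 4 * m - 2)
    (ho : ∀ m, 1 ≤ m → f (2 * m + 1) = 5 * m + 1) {p : ℕ} {P : ℕ → Polynomial ℚ}
    (h : HasBranches f p P) : ¬ EqualLeading p P := by
  have b := branch he ho h
  have hp := h.1
  have hd : ∀ c d : ℚ, (C c * X - C d : Polynomial ℚ).natDegree ≤ 1 := by
    intro c d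
    refine (natDegree_sub_le _ _).trans ?_
    rw [natDegree_C]
    exact max_le ((natDegree_C_mul_le c X).trans natDegree_X_le) (by omega)
  have hc : ∀ c d : ℚ, (C c * X - C d : Polynomial ℚ).coeff 1 = c := by
    intro c d
    rw [coeff_sub, coeff_C_mul, coeff_X_one, mul_one, coeff_C]
    simp
  have h0 : P 0 = C 2 * X - C 2 := by
    have := b 0
    rwa [Nat.zero_mod, if_pos (by decide)] at this
  by_cases hpe : p % 2 = 0
  · have h1 : P 1 = C (5 / 2) * X - C (3 / 2) := by
      have := b 1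
      rwa [Nat.mod_eq_of_lt (by omega), if_neg (by decide)] at this
    have htop : topDegree p P = 1 := by
      unfold topDegree
      refine le_antisymm (Finset.sup_le fun i hi => ?_) ?_
      · have h2 := b i
        rw [Nat.mod_eq_of_lt (Finset.mem_range.1 hi)] at h2
        rw [h2]
        split_ifs
        · exact hd _ _
        · exact hd _ _
      · refine le_trans ?_ (Finset.le_sup (f := fun i => (P i).natDegree) (Finset.mem_range.2 hp))
        rw [h0]
        exact le_natDegree_of_ne_zero (by rw [hc]; norm_num)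
    intro he
    have h2 := he 0 1 (by omega) (by omega)
    rw [htop, h0, h1, hc, hc] at h2
    norm_num at h2
  · have h1 := b p
    rw [Nat.mod_self, if_neg hpe, h0] at h1
    have h2 : (C 2 * X - C 2 : Polynomial ℚ).coeff 1 =
        (C (5 / 2) * X - C (3 / 2) : Polynomial ℚ).coeff 1 := by
      rw [← h1]
    rw [hc, hc] at h2
    norm_num at h2

open Polynomial in
/-- There is a finite set of exponents of monomials in three variables such that over every field `K` the
monomial ideal `I` generated by these monomials has `sdef_I(2m) = 4m - 2` and `sdef_I(2m + 1) = 5m + 1` for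
all `m ≥ 1`. So `sdef_I` is eventually quasi-polynomial, and the branches of this quasi-polynomial do not
have equal leading coefficients, whichever period is chosen. -/
theorem result :
    ∃ A : Finset (Fin 3 →₀ ℕ), ∀ (K : Type) [Field K],
      (∀ m : ℕ, 1 ≤ m → sdef (monIdeal K (A : Set (Fin 3 →₀ ℕ))) (2 * m) = 4 * m - 2) ∧
      (∀ m : ℕ, 1 ≤ m → sdef (monIdeal K (A : Set (Fin 3 →₀ ℕ))) (2 * m + 1) = 5 * m + 1) ∧
      (∃ p P, HasBranches (sdef (monIdeal K (A : Set (Fin 3 →₀ ℕ)))) p P) ∧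
      ∀ p P, HasBranches (sdef (monIdeal K (A : Set (Fin 3 →₀ ℕ)))) p P → ¬ EqualLeading p P := by
  refine ⟨gens, fun K _ => ?_⟩
  have he : ∀ m : ℕ, 1 ≤ m → sdef (monIdeal K (gens : Set (Fin 3 →₀ ℕ))) (2 * m) = 4 * m - 2 :=
    fun m hm => (sdef_eq K (by omega)).trans (card_even hm)
  have ho : ∀ m : ℕ, 1 ≤ m → sdef (monIdeal K (gens : Set (Fin 3 →₀ ℕ))) (2 * m + 1) = 5 * m + 1 :=
    fun m hm => (sdef_eq K (by omega)).trans (card_odd m)
  refine ⟨he, ho, ⟨2, fun i => if i = 0 then C 2 * X - C 2 else C (5 / 2) * X - C (3 / 2),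
    by omega, 2, fun n hn => ?_⟩, fun p P h => not_equal he ho h⟩
  beta_reduce
  by_cases h5 : n % 2 = 0
  · obtain ⟨m, rfl⟩ : ∃ m, n = 2 * m := ⟨n / 2, by omega⟩
    rw [if_pos h5, he m (by omega), Nat.cast_sub (by omega)]
    simp only [eval_sub, eval_mul, eval_C, eval_X]
    push_cast
    ring
  · obtain ⟨m, rfl⟩ : ∃ m, n = 2 * m + 1 := ⟨n / 2, by omega⟩
    rw [if_neg h5, ho m (by omega)]
    simp only [eval_sub, eval_mul, eval_C, eval_X]
    push_cast
    ring

end Pool.Agent.Results.MP_a342dd_al.DifferentLeadingCoefficients
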